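import Mathlib

set_option autoImplicit false

namespace Pool.Agent.X39.CA

open Matrix PowerSeries
open scoped PowerSeries.WithPiTopology MatrixGroups

section ring
variable {R : Type} [CommRing R]

/-- an element of `SL(2, R)` -/
def mk4 (a b c d : R) (h : a * d - b * c = 1) : SL(2, R) := ⟨!![a, b; c, d], by rw [Matrix.det_fin_two_of, h]⟩

lemma mk4_mul (a b c d : R) (h : a * d - b * c = 1) (a' b' c' d' : R) (h' : a' * d' - b' * c' = 1) :
    mk4 a b c d h * mk4 a' b' c' d' h' =
      mk4 (a * a' + b * c') (a * b' + b * d') (c * a' + d * c') (c * b' + d * d')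
        (by linear_combination (a' * d' - b' * c') * h + h') := by
  apply Subtype.ext
  change !![a, b; c, d] * !![a', b'; c', d'] = !![_, _; _, _]
  rw [Matrix.mul_fin_two]

lemma mk4_ext {a b c d : R} {h : a * d - b * c = 1} {a' b' c' d' : R} {h' : a' * d' - b' * c' = 1}
    (h1 : a = a') (h2 : b = b') (h3 : c = c') (h4 : d = d') : mk4 a b c d h = mk4 a' b' c' d' h' := by
  subst h1 h2 h3 h4
  rfl

lemma mk4_inj {a b c d : R} {h : a * d - b * c = 1} {a' b' c' d' : R} {h' : a' * d' - b' * c' = 1}
    (he : mk4 a b c d h = mk4 a' b' c' d' h') : a = a' ∧ b = b' ∧ c = c' ∧ d = d' := by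
  have h1 := congrArg Subtype.val he
  exact ⟨congrFun (congrFun h1 0) 0, congrFun (congrFun h1 0) 1, congrFun (congrFun h1 1) 0,
    congrFun (congrFun h1 1) 1⟩

lemma mk4_inv (a b c d : R) (h : a * d - b * c = 1) :
    (mk4 a b c d h)⁻¹ = mk4 d (-b) (-c) a (by linear_combination h) := by
  rw [_root_.inv_eq_iff_mul_eq_one, mk4_mul]
  apply Subtype.ext
  change !![_, _; _, _] = (1 : Matrix (Fin 2) (Fin 2) R)
  rw [Matrix.one_fin_two]
  congr 1
  have e1 : a * d + b * -c = 1 := by linear_combination h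
  have e2 : a * -b + b * a = 0 := by ring
  have e3 : c * d + d * -c = 0 := by ring
  have e4 : c * -b + d * a = 1 := by linear_combination h
  rw [e1, e2, e3, e4]

lemma exists_mk4 (x : SL(2, R)) : ∃ (a b c d : R) (h : a * d - b * c = 1), x = mk4 a b c d h := by
  refine ⟨x.1 0 0, x.1 0 1, x.1 1 0, x.1 1 1, ?_, ?_⟩
  · have := x.2
    rwa [Matrix.det_fin_two] at this
  · apply Subtype.ext
    exact Matrix.eta_fin_two x.1

/-- upper transvection -/
def uu (b : R) : SL(2, R) := mk4 1 b 0 1 (by ring)
/-- lower transvection -/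
def ll (b : R) : SL(2, R) := mk4 1 0 b 1 (by ring)
/-- diagonal element -/
def dd (a a' : R) (h : a * a' = 1) : SL(2, R) := mk4 a 0 0 a' (by linear_combination h)

lemma dd_eq (a a' : R) (h : a * a' = 1) :
    dd a a' h = uu a * ll (-a') * uu a * (uu (-1) * ll 1 * uu (-1)) := by
  unfold dd uu ll
  simp only [mk4_mul]
  apply mk4_ext
  · linear_combination a * h
  · linear_combination (-1 : R) * h
  · linear_combination h
  · ring

lemma comm_uu (a a' b : R) (h : a * a' = 1) :
    dd a a' h * uu b * (dd a a' h)⁻¹ * (uu b)⁻¹ = uu ((a ^ 2 - 1) * b) := by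
  unfold dd uu
  simp only [mk4_inv, mk4_mul]
  apply mk4_ext
  · linear_combination h
  · linear_combination (-b) * h
  · ring
  · linear_combination h

lemma comm_ll (a a' b : R) (h : a * a' = 1) :
    dd a a' h * ll b * (dd a a' h)⁻¹ * (ll b)⁻¹ = ll ((a' ^ 2 - 1) * b) := by
  unfold dd ll
  simp only [mk4_inv, mk4_mul]
  apply mk4_ext
  · linear_combination h
  · ring
  · linear_combination (-b) * h
  · linear_combination h

/-- all transvections lie in every term of the derived series -/
theorem derived (a a' e e' : R) (h1 : a * a' = 1) (h2 : (a ^ 2 - 1) * e = 1)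
    (h3 : (a' ^ 2 - 1) * e' = 1) (n : ℕ) :
    ∀ b : R, uu b ∈ derivedSeries (SL(2, R)) n ∧ ll b ∈ derivedSeries (SL(2, R)) n := by
  induction n with
  | zero => intro b; exact ⟨trivial, trivial⟩
  | succ n ih =>
    have hd : dd a a' h1 ∈ derivedSeries (SL(2, R)) n := by
      rw [dd_eq]
      have hu : ∀ b, uu b ∈ derivedSeries (SL(2, R)) n := fun b => (ih b).1
      have hl : ∀ b, ll b ∈ derivedSeries (SL(2, R)) n := fun b => (ih b).2
      exact Subgroup.mul_mem _ (Subgroup.mul_mem _ (Subgroup.mul_mem _ (hu _) (hl _)) (hu _))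
        (Subgroup.mul_mem _ (Subgroup.mul_mem _ (hu _) (hl _)) (hu _))
    intro b
    rw [derivedSeries_succ]
    constructor
    · have h4 := Subgroup.commutator_mem_commutator hd (ih (e * b)).1
      rw [commutatorElement_def, comm_uu] at h4
      have h5 : (a ^ 2 - 1) * (e * b) = b := by linear_combination b * h2
      rwa [h5] at h4
    · have h4 := Subgroup.commutator_mem_commutator hd (ih (e' * b)).2
      rw [commutatorElement_def, comm_ll] at h4
      have h5 : (a' ^ 2 - 1) * (e' * b) = b := by linear_combination b * h3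
      rwa [h5] at h4

lemma commute_iff (a b c d : R) (h : a * d - b * c = 1) (a' b' c' d' : R) (h' : a' * d' - b' * c' = 1) :
    mk4 a b c d h * mk4 a' b' c' d' h' = mk4 a' b' c' d' h' * mk4 a b c d h ↔
      b * c' = c * b' ∧ (a - d) * b' = b * (a' - d') ∧ (a - d) * c' = c * (a' - d') := by
  rw [mk4_mul, mk4_mul]
  constructor
  · intro he
    obtain ⟨e1, e2, e3, e4⟩ := mk4_inj he
    refine ⟨?_, ?_, ?_⟩
    · linear_combination e1
    · linear_combination e2
    · linear_combination (-1 : R) * e3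
  · rintro ⟨e1, e2, e3⟩
    apply mk4_ext
    · linear_combination e1
    · linear_combination e2
    · linear_combination (-1 : R) * e3
    · linear_combination (-1 : R) * e1

lemma cross [IsDomain R] {b c t b' c' t' b'' c'' t'' : R} (hne : b ≠ 0 ∨ c ≠ 0 ∨ t ≠ 0)
    (y1 : b * c' = c * b') (y2 : t * b' = b * t') (y3 : t * c' = c * t')
    (z1 : b * c'' = c * b'') (z2 : t * b'' = b * t'') (z3 : t * c'' = c * t'') :
    b' * c'' = c' * b'' ∧ t' * b'' = b' * t'' ∧ t' * c'' = c' * t'' := by
  rcases hne with hb | hc | ht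
  · have g1 : b' * c'' = c' * b'' := mul_left_cancel₀ hb (by linear_combination b' * z1 - b'' * y1)
    refine ⟨g1, mul_left_cancel₀ hb ?_, mul_left_cancel₀ hb ?_⟩
    · linear_combination b' * z2 - b'' * y2
    · linear_combination (-c'') * y2 + c' * z2 + t * g1
  · have g1 : b' * c'' = c' * b'' := mul_left_cancel₀ hc (by linear_combination (-c'') * y1 + c' * z1)
    refine ⟨g1, mul_left_cancel₀ hc ?_, mul_left_cancel₀ hc ?_⟩
    · linear_combination (-b'') * y3 + b' * z3 - t * g1
    · linear_combination (-c'') * y3 + c' * z3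
  · refine ⟨mul_left_cancel₀ ht ?_, mul_left_cancel₀ ht ?_, mul_left_cancel₀ ht ?_⟩
    · linear_combination c'' * y2 - b'' * y3 + t' * z1
    · linear_combination t' * z2 - t'' * y2
    · linear_combination t' * z3 - t'' * y3

/-- `SL(2, R)` over a domain of characteristic two is a CA-group -/
theorem ca [IsDomain R] [CharP R 2] (x : SL(2, R)) (hx : x ≠ 1) (y z : SL(2, R)) (hy : x * y = y * x)
    (hz : x * z = z * x) : y * z = z * y := by
  obtain ⟨a, b, c, d, h, rfl⟩ := exists_mk4 x
  obtain ⟨a', b', c', d', h', rfl⟩ := exists_mk4 y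
  obtain ⟨a'', b'', c'', d'', h'', rfl⟩ := exists_mk4 z
  rw [commute_iff] at hy hz ⊢
  obtain ⟨y1, y2, y3⟩ := hy
  obtain ⟨z1, z2, z3⟩ := hz
  have hne : b ≠ 0 ∨ c ≠ 0 ∨ a - d ≠ 0 := by
    by_contra hcon
    push Not at hcon
    obtain ⟨hb, hc, hd⟩ := hcon
    apply hx
    have had : a = d := sub_eq_zero.1 hd
    subst hb hc had
    have h2 : (2 : R) = 0 := CharP.cast_eq_zero R 2
    have h1 : (a - 1) ^ 2 = 0 := by linear_combination h - (a - 1) * h2
    have h3 : a = 1 := by
      have := pow_eq_zero_iff (two_ne_zero) |>.1 h1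
      exact sub_eq_zero.1 this
    subst h3
    apply Subtype.ext
    change !![(1 : R), 0; 0, 1] = 1
    rw [Matrix.one_fin_two]
  exact cross hne y1 y2 y3 z1 z2 z3

end ring

section top

variable (F : Type) [Field F] [Finite F] [CharP F 2]

/-- the ring of power series with its product topology, `F` being discrete -/
def Rg : Type := PowerSeries F

noncomputable instance : CommRing (Rg F) := inferInstanceAs (CommRing (PowerSeries F))
instance : IsDomain (Rg F) := inferInstanceAs (IsDomain (PowerSeries F))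

instance : TopologicalSpace (Rg F) :=
  letI : TopologicalSpace F := ⊥
  inferInstanceAs (TopologicalSpace (PowerSeries F))

instance : IsTopologicalRing (Rg F) :=
  letI : TopologicalSpace F := ⊥
  haveI : DiscreteTopology F := ⟨rfl⟩
  inferInstanceAs (IsTopologicalRing (PowerSeries F))

instance : T2Space (Rg F) :=
  letI : TopologicalSpace F := ⊥
  haveI : DiscreteTopology F := ⟨rfl⟩
  inferInstanceAs (T2Space (PowerSeries F))

instance : CompactSpace (Rg F) :=
  letI : TopologicalSpace F := ⊥
  haveI : DiscreteTopology F := ⟨rfl⟩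
  inferInstanceAs (CompactSpace ((Unit →₀ ℕ) → F))

instance : TotallyDisconnectedSpace (Rg F) :=
  letI : TopologicalSpace F := ⊥
  haveI : DiscreteTopology F := ⟨rfl⟩
  inferInstanceAs (TotallyDisconnectedSpace ((Unit →₀ ℕ) → F))

instance : CompactSpace (SL(2, Rg F)) := by
  have : CompactSpace (Matrix (Fin 2) (Fin 2) (Rg F)) :=
    inferInstanceAs (CompactSpace (Fin 2 → Fin 2 → Rg F))
  exact Matrix.SpecialLinearGroup.isClosedEmbedding_val.compactSpace

instance : TotallyDisconnectedSpace (SL(2, Rg F)) := by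
  have : TotallyDisconnectedSpace (Matrix (Fin 2) (Fin 2) (Rg F)) :=
    inferInstanceAs (TotallyDisconnectedSpace (Fin 2 → Fin 2 → Rg F))
  exact inferInstanceAs (TotallyDisconnectedSpace (Subtype _))

instance : T2Space (SL(2, Rg F)) := by
  have : T2Space (Matrix (Fin 2) (Fin 2) (Rg F)) :=
    inferInstanceAs (T2Space (Fin 2 → Fin 2 → Rg F))
  exact inferInstanceAs (T2Space (Subtype _))

/-- the residue map -/
noncomputable def res : Rg F →+* F := (PowerSeries.constantCoeff : PowerSeries F →+* F)

/-- the constants -/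
noncomputable def cst : F →+* Rg F := (PowerSeries.C : F →+* PowerSeries F)

omit [Finite F] [CharP F 2] in
lemma res_cst (x : F) : res F (cst F x) = x := PowerSeries.constantCoeff_C x

instance : CharP (Rg F) 2 := by
  have : Function.Injective (cst F) := (cst F).injective
  exact charP_of_injective_ringHom this 2

omit [Finite F] [CharP F 2] in
lemma res_cont : @Continuous (Rg F) F _ ⊥ (res F) := by
  let _ : TopologicalSpace F := ⊥
  exact PowerSeries.WithPiTopology.continuous_constantCoeff F

/-- the kernel of the reduction -/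
noncomputable def Nn : Subgroup (SL(2, Rg F)) := (Matrix.SpecialLinearGroup.map (res F)).ker

instance : (Nn F).Normal := inferInstanceAs (MonoidHom.ker _).Normal

lemma Nn_open : IsOpen (Nn F : Set (SL(2, Rg F))) := by
  let _ : TopologicalSpace F := ⊥
  have : DiscreteTopology F := ⟨rfl⟩
  have h1 : Continuous (Matrix.SpecialLinearGroup.map (n := Fin 2) (res F)) :=
    (res_cont F).specialLinearGroup_map
  have h2 : (Nn F : Set (SL(2, Rg F))) = (Matrix.SpecialLinearGroup.map (n := Fin 2) (res F)) ⁻¹' {1} := by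
    ext x
    exact MonoidHom.mem_ker
  rw [h2]
  exact (isOpen_discrete _).preimage h1

theorem not_solvable (hF : 2 < Nat.card F) : ¬ Group.IsSolvable (SL(2, Rg F) ⧸ Nn F) := by
  rintro ⟨n, hn⟩
  -- an element different from 0 and 1
  obtain ⟨a, ha0, ha1⟩ : ∃ a : F, a ≠ 0 ∧ a ≠ 1 := by
    by_contra hcon
    push Not at hcon
    have := Fintype.ofFinite F
    classical
    have h1 : (Finset.univ : Finset F) ⊆ {0, 1} := by
      intro x _
      rw [Finset.mem_insert, Finset.mem_singleton]
      by_cases hx : x = 0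
      · exact Or.inl hx
      · exact Or.inr (hcon x hx)
    have h2 := Finset.card_le_card h1
    rw [Finset.card_univ, ← Nat.card_eq_fintype_card] at h2
    have h3 := Finset.card_le_two (a := (0 : F)) (b := 1)
    omega
  have h2 : (2 : F) = 0 := CharP.cast_eq_zero F 2
  have hsq : ∀ y : F, y ≠ 1 → y ^ 2 - 1 ≠ 0 := by
    intro y hy h
    have h4 : (y - 1) ^ 2 = 0 := by linear_combination h - (y - 1) * h2
    have h5 := pow_eq_zero_iff (two_ne_zero) |>.1 h4
    exact hy (sub_eq_zero.1 h5)
  have hai : a⁻¹ ≠ 1 := fun h => ha1 (by rw [← inv_inv a, h, inv_one])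
  have e1 : cst F a * cst F a⁻¹ = 1 := by rw [← map_mul, mul_inv_cancel₀ ha0, map_one]
  have e2 : (cst F a ^ 2 - 1) * cst F (a ^ 2 - 1)⁻¹ = 1 := by
    rw [← map_one (cst F), ← map_pow, ← map_sub, ← map_mul, mul_inv_cancel₀ (hsq a ha1)]
  have e3 : (cst F a⁻¹ ^ 2 - 1) * cst F (a⁻¹ ^ 2 - 1)⁻¹ = 1 := by
    rw [← map_one (cst F), ← map_pow, ← map_sub, ← map_mul, mul_inv_cancel₀ (hsq _ hai)]
  have h5 := (derived (cst F a) (cst F a⁻¹) _ _ e1 e2 e3 n 1).1
  have h6 := map_derivedSeries_le_derivedSeries (QuotientGroup.mk' (Nn F)) n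
    (Subgroup.mem_map_of_mem _ h5)
  rw [hn, Subgroup.mem_bot] at h6
  have h7 : uu (1 : Rg F) ∈ Nn F := (QuotientGroup.eq_one_iff _).1 h6
  have h8 : Matrix.SpecialLinearGroup.map (res F) (uu (1 : Rg F)) = 1 := h7
  have h9 := congrFun (congrFun (congrArg Subtype.val h8) 0) 1
  have h10 : res F 1 = 0 := h9
  rw [map_one] at h10
  exact one_ne_zero h10

omit [Finite F] [CharP F 2] in
lemma map_surj : Function.Surjective (Matrix.SpecialLinearGroup.map (n := Fin 2) (res F)) := by
  intro x
  refine ⟨Matrix.SpecialLinearGroup.map (cst F) x, ?_⟩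
  apply Subtype.ext
  ext i j
  exact res_cst F _

/-- the quotient -/
noncomputable def quo : (SL(2, Rg F) ⧸ Nn F) ≃* SL(2, F) :=
  QuotientGroup.quotientKerEquivOfSurjective _ (map_surj F)

instance : Infinite (SL(2, Rg F)) := by
  refine Infinite.of_injective (fun n : ℕ => uu ((PowerSeries.X : PowerSeries F) ^ n : Rg F)) ?_
  intro m n h
  have h1 := (mk4_inj h).2.1
  by_contra hne
  have h2 := congrArg (PowerSeries.coeff n) (show (PowerSeries.X : PowerSeries F) ^ m = PowerSeries.X ^ n from h1)
  rw [PowerSeries.coeff_X_pow, PowerSeries.coeff_X_pow, if_pos rfl, if_neg (fun h => hne h.symm)] at h2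
  exact zero_ne_one h2

end top

end Pool.Agent.X39.CA
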